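import Mathlib
import Pool.Agent.TH263.DQ.Kdef

/-! Integral elements of a quadratic extension. -/

set_option autoImplicit false

namespace Pool.Agent.TH263.DQ

open NumberField Module Matrix
open scoped nonZeroDivisors

lemma dvd_of_sq_dvd {R : Type*} [CommRing R] [IsDedekindDomain R] {X Z D : Ideal R} (hX : X ≠ ⊥)
    (hZ : Z ≠ ⊥) (hD : Squarefree D) (hD0 : D ≠ ⊥) (h : X ^ 2 ∣ D * Z ^ 2) : X ∣ Z := by
  classical
  have hX' : X ≠ 0 := hX
  have hZ' : Z ≠ 0 := hZ
  have hD' : D ≠ 0 := hD0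
  rw [UniqueFactorizationMonoid.dvd_iff_normalizedFactors_le_normalizedFactors (pow_ne_zero 2 hX')
    (mul_ne_zero hD' (pow_ne_zero 2 hZ')),
    UniqueFactorizationMonoid.normalizedFactors_mul hD' (pow_ne_zero 2 hZ'),
    UniqueFactorizationMonoid.normalizedFactors_pow,
    UniqueFactorizationMonoid.normalizedFactors_pow, Multiset.le_iff_count] at h
  rw [UniqueFactorizationMonoid.dvd_iff_normalizedFactors_le_normalizedFactors hX' hZ',
    Multiset.le_iff_count]
  intro p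
  have h1 := h p
  have h2 := (UniqueFactorizationMonoid.squarefree_iff_nodup_normalizedFactors hD').1 hD
  have h3 := Multiset.nodup_iff_count_le_one.1 h2 p
  rw [Multiset.count_add, Multiset.count_nsmul, Multiset.count_nsmul] at h1
  omega

section quad

variable {M : Type} [Field M] [NumberField M] {L : Type} [Field L] [NumberField L] [Algebra M L]

/-- If `α y ^ 2` is integral and `(α) = 𝔡 𝔠 ^ 2` with `𝔡` squarefree, then `y ∈ 𝔠⁻¹`. -/
lemma mem_inv_of {α : 𝓞 M} {𝔡 𝔠 : Ideal (𝓞 M)} (hα : α ≠ 0) (hd : Squarefree 𝔡)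
    (h : Ideal.span {α} = 𝔡 * 𝔠 ^ 2) (y : M) (hy : IsIntegral ℤ ((α : M) * y ^ 2)) (c : 𝓞 M)
    (hc : c ∈ 𝔠) : IsIntegral ℤ ((c : M) * y) := by
  by_cases hy0 : y = 0
  · rw [hy0, mul_zero]; exact isIntegral_zero
  obtain ⟨a, b, hb, rfl⟩ := IsFractionRing.div_surjective (A := 𝓞 M) y
  have hb0 : b ≠ 0 := nonZeroDivisors.ne_zero hb
  have hbM : (algebraMap (𝓞 M) M) b ≠ 0 := by
    intro h0
    exact hb0 ((map_eq_zero_iff _ (FaithfulSMul.algebraMap_injective (𝓞 M) M)).1 h0)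
  have ha0 : a ≠ 0 := by
    rintro rfl
    apply hy0
    rw [map_zero, zero_div]
  have hsp : Ideal.span {α} ≠ ⊥ := by
    rw [Ne, Ideal.span_singleton_eq_bot]; exact hα
  have hd0 : 𝔡 ≠ ⊥ := by
    rintro rfl
    apply hsp
    rw [h, Ideal.bot_mul]
  have hc0 : 𝔠 ≠ ⊥ := by
    rintro rfl
    apply hsp
    rw [h, pow_two, Ideal.bot_mul, Ideal.mul_bot]
  -- `b ^ 2` divides `α a ^ 2`
  set t : 𝓞 M := ⟨_, hy⟩ with ht
  have e1 : α * a ^ 2 = b ^ 2 * t := by
    apply FaithfulSMul.algebraMap_injective (𝓞 M) M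
    rw [map_mul, map_mul, map_pow, map_pow]
    have : algebraMap (𝓞 M) M t = (α : M) * (algebraMap (𝓞 M) M a / algebraMap (𝓞 M) M b) ^ 2 := rfl
    rw [this]
    field_simp
  have h1 : Ideal.span {b} ^ 2 ∣ 𝔡 * (𝔠 * Ideal.span {a}) ^ 2 := by
    refine ⟨Ideal.span {t}, ?_⟩
    rw [mul_pow, ← mul_assoc, ← h, Ideal.span_singleton_pow, Ideal.span_singleton_pow,
      Ideal.span_singleton_mul_span_singleton, Ideal.span_singleton_mul_span_singleton, e1]
  have h2 : Ideal.span {b} ∣ 𝔠 * Ideal.span {a} := by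
    refine dvd_of_sq_dvd ?_ ?_ hd hd0 h1
    · rw [Ne, Ideal.span_singleton_eq_bot]; exact hb0
    · apply mul_ne_zero hc0
      rw [Ne, Ideal.zero_eq_bot, Ideal.span_singleton_eq_bot]; exact ha0
  have h3 : c * a ∈ Ideal.span {b} :=
    Ideal.dvd_iff_le.1 h2 (Ideal.mul_mem_mul hc (Ideal.mem_span_singleton_self a))
  rw [Ideal.mem_span_singleton] at h3
  obtain ⟨w, hw⟩ := h3
  have e2 : (c : M) * (algebraMap (𝓞 M) M a / algebraMap (𝓞 M) M b) = (w : M) := by
    have e3 : algebraMap (𝓞 M) M c * algebraMap (𝓞 M) M a =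
      algebraMap (𝓞 M) M b * algebraMap (𝓞 M) M w := by
      rw [← map_mul, ← map_mul, hw]
    show algebraMap (𝓞 M) M c * (algebraMap (𝓞 M) M a / algebraMap (𝓞 M) M b) =
      algebraMap (𝓞 M) M w
    rw [← mul_div_assoc, e3, mul_div_cancel_left₀ _ hbM]
  rw [e2]
  exact w.2

variable (s : L) (α : 𝓞 M)

lemma linInd (hn : ∀ x : M, algebraMap M L x ≠ s) : LinearIndependent M ![(1 : L), s] := by
  rw [LinearIndependent.pair_iff]
  intro a b hab
  rw [Algebra.smul_def, Algebra.smul_def, mul_one] at hab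
  have hb : b = 0 := by
    by_contra hb
    apply hn (-a / b)
    have hb' : algebraMap M L b ≠ 0 := by
      rw [Ne, map_eq_zero]; exact hb
    rw [map_div₀, map_neg, div_eq_iff hb']
    linear_combination -hab
  refine ⟨?_, hb⟩
  rw [hb, map_zero, zero_mul, add_zero, map_eq_zero] at hab
  exact hab

/-- the basis `1, s` -/
noncomputable def cB (hn : ∀ x : M, algebraMap M L x ≠ s) (h2 : finrank M L = 2) :
    Basis (Fin 2) M L :=
  basisOfLinearIndependentOfCardEqFinrank (linInd s hn) (by rw [h2, Fintype.card_fin])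

lemma cB_zero (hn : ∀ x : M, algebraMap M L x ≠ s) (h2 : finrank M L = 2) : cB s hn h2 0 = 1 := by
  simp [cB]

lemma cB_one (hn : ∀ x : M, algebraMap M L x ≠ s) (h2 : finrank M L = 2) : cB s hn h2 1 = s := by
  simp [cB]

/-- `(x, y) ↦ x + y s` -/
noncomputable def eL (hn : ∀ x : M, algebraMap M L x ≠ s) (h2 : finrank M L = 2) :
    (M × M) ≃ₗ[M] L :=
  (LinearEquiv.finTwoArrow M M).symm.trans (cB s hn h2).equivFun.symm

lemma eL_apply (hn : ∀ x : M, algebraMap M L x ≠ s) (h2 : finrank M L = 2) (p : M × M) :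
    eL s hn h2 p = algebraMap M L p.1 + algebraMap M L p.2 * s := by
  show (cB s hn h2).equivFun.symm ((LinearEquiv.finTwoArrow M M).symm p) = _
  rw [Basis.equivFun_symm_apply, Fin.sum_univ_two, cB_zero, cB_one, Algebra.smul_def,
    Algebra.smul_def, mul_one]
  rfl

lemma trace_base (h2 : finrank M L = 2) (x : M) :
    Algebra.trace M L (algebraMap M L x) = 2 * x := by
  rw [Algebra.trace_algebraMap, h2, nsmul_eq_mul]
  norm_num

lemma trace_s (hn : ∀ x : M, algebraMap M L x ≠ s) (h2 : finrank M L = 2)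
    (hs : s ^ 2 = algebraMap M L (α : M)) : Algebra.trace M L s = 0 := by
  classical
  rw [Algebra.trace_eq_matrix_trace (cB s hn h2), Matrix.trace, Fin.sum_univ_two, Matrix.diag_apply,
    Matrix.diag_apply, Algebra.leftMulMatrix_eq_repr_mul, Algebra.leftMulMatrix_eq_repr_mul,
    cB_zero, cB_one, mul_one]
  have e1 : (cB s hn h2).repr s 0 = 0 := by
    have := (cB s hn h2).repr_self 1
    rw [cB_one] at this
    rw [this]
    simp
  have e2 : (cB s hn h2).repr (s * s) 1 = 0 := by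
    have : s * s = (α : M) • (cB s hn h2 0) := by
      rw [cB_zero, Algebra.smul_def, mul_one, ← pow_two, hs]
    rw [this, map_smul, Basis.repr_self]
    simp
  rw [e1, e2, add_zero]

lemma trace_mul_s (hn : ∀ x : M, algebraMap M L x ≠ s) (h2 : finrank M L = 2)
    (hs : s ^ 2 = algebraMap M L (α : M)) (y : M) :
    Algebra.trace M L (algebraMap M L y * s) = 0 := by
  rw [← Algebra.smul_def, map_smul, trace_s s α hn h2 hs, smul_zero]

lemma integral_of_SQ (hs : s ^ 2 = algebraMap M L (α : M)) (x y : M)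
    (h1 : IsIntegral ℤ (2 * x)) (h3 : IsIntegral ℤ (x ^ 2 - (α : M) * y ^ 2)) :
    IsIntegral ℤ (algebraMap M L x + algebraMap M L y * s) := by
  set a : 𝓞 M := ⟨_, h1⟩ with ha
  set b : 𝓞 M := ⟨_, h3⟩ with hb
  have : IsIntegral (𝓞 M) (algebraMap M L x + algebraMap M L y * s) := by
    refine ⟨Polynomial.X ^ 2 - Polynomial.C a * Polynomial.X + Polynomial.C b, ?_, ?_⟩
    · monicity!
    · rw [Polynomial.eval₂_add, Polynomial.eval₂_sub, Polynomial.eval₂_mul, Polynomial.eval₂_pow,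
        Polynomial.eval₂_X, Polynomial.eval₂_C, Polynomial.eval₂_C,
        IsScalarTower.algebraMap_apply (𝓞 M) M L a, IsScalarTower.algebraMap_apply (𝓞 M) M L b]
      have ea : algebraMap (𝓞 M) M a = 2 * x := rfl
      have eb : algebraMap (𝓞 M) M b = x ^ 2 - (α : M) * y ^ 2 := rfl
      rw [ea, eb, map_mul, map_sub, map_mul, map_pow, map_pow, ← hs, map_ofNat]
      ring
  exact isIntegral_trans _ this

lemma SQ_of_integral (hn : ∀ x : M, algebraMap M L x ≠ s) (h2 : finrank M L = 2)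
    (hs : s ^ 2 = algebraMap M L (α : M)) {𝔡 𝔠 : Ideal (𝓞 M)} (hα : α ≠ 0) (hd : Squarefree 𝔡)
    (h : Ideal.span {α} = 𝔡 * 𝔠 ^ 2) (x y : M)
    (hz : IsIntegral ℤ (algebraMap M L x + algebraMap M L y * s)) : (x, y) ∈ SQ 𝔠 α := by
  have h1 : IsIntegral ℤ (2 * x) := by
    have := Algebra.isIntegral_trace (L := M) (F := L) hz
    rw [map_add, trace_base h2, trace_mul_s s α hn h2 hs, add_zero] at this
    exact this
  have h3 : IsIntegral ℤ (x ^ 2 - (α : M) * y ^ 2) := by
    have h4 : IsIntegral ℤ (algebraMap M L (2 * x)) := h1.algebraMap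
    have h5 := hz.mul (h4.sub hz)
    have e : (algebraMap M L x + algebraMap M L y * s) *
        (algebraMap M L (2 * x) - (algebraMap M L x + algebraMap M L y * s)) =
        algebraMap M L (x ^ 2 - (α : M) * y ^ 2) := by
      rw [map_sub, map_mul, map_mul, map_pow, map_pow, ← hs, map_ofNat]
      ring
    rw [e] at h5
    exact (isIntegral_algebraMap_iff (FaithfulSMul.algebraMap_injective M L)).1 h5
  refine ⟨h1, ?_, h3⟩
  intro c hc
  refine mem_inv_of hα hd h (2 * y) ?_ c hc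
  have h4 : IsIntegral ℤ (4 : M) := by
    have : (4 : M) = algebraMap ℤ M 4 := by simp
    rw [this]
    exact isIntegral_algebraMap
  have h6 := (h1.pow 2).sub (h4.mul h3)
  have e : (2 * x) ^ 2 - 4 * (x ^ 2 - (α : M) * y ^ 2) = (α : M) * (2 * y) ^ 2 := by ring
  rw [e] at h6
  exact h6

lemma HH_sub (hs : s ^ 2 = algebraMap M L (α : M)) {𝔡 𝔠 : Ideal (𝓞 M)}
    (h : Ideal.span {α} = 𝔡 * 𝔠 ^ 2) (x y : M) (hxy : (x, y) ∈ HH 𝔠) :
    IsIntegral ℤ (algebraMap M L x + algebraMap M L y * s) := by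
  obtain ⟨hx, hy⟩ := hxy
  have h2 : IsIntegral ℤ (2 : M) := by
    have : (2 : M) = algebraMap ℤ M 2 := by simp
    rw [this]
    exact isIntegral_algebraMap
  have hα : α ∈ 𝔠 * 𝔠 := by
    have h7 : Ideal.span {α} ≤ 𝔠 * 𝔠 := by
      rw [h, ← pow_two]
      exact Ideal.le_of_dvd (Dvd.intro_left 𝔡 rfl)
    exact h7 (Ideal.mem_span_singleton_self α)
  have h5 : ∀ β ∈ 𝔠 * 𝔠, IsIntegral ℤ ((β : M) * y ^ 2) := by
    intro β hβ
    refine Submodule.mul_induction_on hβ ?_ ?_
    · intro c hc d hd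
      have := (hy c hc).mul (hy d hd)
      change IsIntegral ℤ ((algebraMap (𝓞 M) M) (c * d) * y ^ 2)
      change IsIntegral ℤ ((algebraMap (𝓞 M) M c) * y * (algebraMap (𝓞 M) M d * y)) at this
      rw [map_mul]
      have e : algebraMap (𝓞 M) M c * algebraMap (𝓞 M) M d * y ^ 2 =
        (algebraMap (𝓞 M) M c) * y * (algebraMap (𝓞 M) M d * y) := by ring
      rw [e]
      exact this
    · intro a b ha hb
      change IsIntegral ℤ ((algebraMap (𝓞 M) M) (a + b) * y ^ 2)
      rw [map_add, add_mul]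
      exact ha.add hb
  exact integral_of_SQ s α hs x y (h2.mul hx) ((hx.pow 2).sub (h5 α hα))

end quad

end Pool.Agent.TH263.DQ
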