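import Mathlib
import Pool.Agent.TH263.DQ.Quad

/-! The discriminant of the lattice `𝓞 + 𝔠⁻¹ s`. -/

set_option autoImplicit false

namespace Pool.Agent.TH263.DQ

open NumberField Module Matrix
open scoped nonZeroDivisors

section disc

variable {M : Type} [Field M] [NumberField M] {L : Type} [Field L] [NumberField L] [Algebra M L]

lemma traceQ_base (h2 : finrank M L = 2) (x : M) :
    Algebra.trace ℚ L (algebraMap M L x) = 2 * Algebra.trace ℚ M x := by
  rw [← Algebra.trace_trace (R := ℚ) (S := M) (T := L), trace_base h2]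
  have : (2 : M) * x = (2 : ℚ) • x := (two_smul_eq x).symm
  rw [this, map_smul, smul_eq_mul]

lemma traceQ_s (s : L) (α : 𝓞 M) (hn : ∀ x : M, algebraMap M L x ≠ s) (h2 : finrank M L = 2)
    (hs : s ^ 2 = algebraMap M L (α : M)) (y : M) :
    Algebra.trace ℚ L (algebraMap M L y * s) = 0 := by
  rw [← Algebra.trace_trace (R := ℚ) (S := M) (T := L), trace_mul_s s α hn h2 hs, map_zero]

/-- a `ℤ`-basis of `𝓞 + 𝔠⁻¹ s` -/
noncomputable def bL (s : L) (hn : ∀ x : M, algebraMap M L x ≠ s) (h2 : finrank M L = 2)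
    (𝔠 : Ideal (𝓞 M)) (h : 𝔠 ≠ ⊥) :
    Basis (Free.ChooseBasisIndex ℤ (𝓞 M) ⊕ Free.ChooseBasisIndex ℤ (cinv 𝔠 h)) ℚ L :=
  (bH 𝔠 h).map ((eL s hn h2).restrictScalars ℚ)

lemma bL_apply (s : L) (hn : ∀ x : M, algebraMap M L x ≠ s) (h2 : finrank M L = 2)
    (𝔠 : Ideal (𝓞 M)) (h : 𝔠 ≠ ⊥) (i) : bL s hn h2 𝔠 h i = eL s hn h2 (bH 𝔠 h i) := by
  rw [bL, Basis.map_apply]
  rfl

lemma bL_inl (s : L) (hn : ∀ x : M, algebraMap M L x ≠ s) (h2 : finrank M L = 2)
    (𝔠 : Ideal (𝓞 M)) (h : 𝔠 ≠ ⊥) (i) :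
    bL s hn h2 𝔠 h (Sum.inl i) = algebraMap M L (integralBasis M i) := by
  rw [bL_apply, bH_inl, eL_apply]
  simp

lemma bL_inr (s : L) (hn : ∀ x : M, algebraMap M L x ≠ s) (h2 : finrank M L = 2)
    (𝔠 : Ideal (𝓞 M)) (h : 𝔠 ≠ ⊥) (i) :
    bL s hn h2 𝔠 h (Sum.inr i) = algebraMap M L (basisOfFractionalIdeal M (cinv 𝔠 h) i) * s := by
  rw [bL_apply, bH_inr, eL_apply]
  simp

/-- the form `Tr(α x y)` -/
lemma det_trace_mul {κ : Type*} [Fintype κ] [DecidableEq κ] (c : Basis κ ℚ M) (a : M) :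
    (Matrix.of fun i j => Algebra.trace ℚ M (a * (c i * c j))).det =
      Algebra.norm ℚ a * Algebra.discr ℚ c := by
  have e : (Matrix.of fun i j => Algebra.trace ℚ M (a * (c i * c j))) =
      (Algebra.leftMulMatrix c a)ᵀ * Algebra.traceMatrix ℚ c := by
    ext i j
    rw [Matrix.of_apply, Matrix.mul_apply]
    have h1 : a * c i = ∑ l, (Algebra.leftMulMatrix c a l i) • c l := by
      conv_lhs => rw [← c.sum_repr (a * c i)]
      refine Finset.sum_congr rfl fun l _ => ?_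
      rw [Algebra.leftMulMatrix_eq_repr_mul]
    rw [← mul_assoc, h1, Finset.sum_mul, map_sum]
    refine Finset.sum_congr rfl fun l _ => ?_
    rw [Matrix.transpose_apply, smul_mul_assoc, map_smul, smul_eq_mul, Algebra.traceMatrix_apply,
      Algebra.traceForm_apply]
  rw [e, Matrix.det_mul, Matrix.det_transpose, ← Algebra.norm_eq_matrix_det, Algebra.discr_def]

lemma discr_bL (s : L) (α : 𝓞 M) (hn : ∀ x : M, algebraMap M L x ≠ s) (h2 : finrank M L = 2)
    (hs : s ^ 2 = algebraMap M L (α : M)) (𝔠 : Ideal (𝓞 M)) (h : 𝔠 ≠ ⊥) :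
    Algebra.discr ℚ (bL s hn h2 𝔠 h) =
      2 ^ finrank ℚ M * (discr M : ℚ) * (2 ^ finrank ℚ M *
        (Algebra.norm ℚ (α : M) * Algebra.discr ℚ (basisOfFractionalIdeal M (cinv 𝔠 h)))) := by
  classical
  set c := basisOfFractionalIdeal M (cinv 𝔠 h) with hc
  have e : Algebra.traceMatrix ℚ (bL s hn h2 𝔠 h) =
      Matrix.fromBlocks ((2 : ℚ) • Algebra.traceMatrix ℚ (integralBasis M)) 0 0
        ((2 : ℚ) • Matrix.of fun i j => Algebra.trace ℚ M ((α : M) * (c i * c j))) := by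
    ext i j
    rw [Algebra.traceMatrix_apply, Algebra.traceForm_apply]
    rcases i with i | i <;> rcases j with j | j
    · rw [bL_inl, bL_inl, ← map_mul, traceQ_base h2, Matrix.fromBlocks_apply₁₁, Matrix.smul_apply,
        Algebra.traceMatrix_apply, Algebra.traceForm_apply, smul_eq_mul]
    · rw [bL_inl, bL_inr, ← mul_assoc, ← map_mul, traceQ_s s α hn h2 hs,
        Matrix.fromBlocks_apply₁₂]
      rfl
    · rw [bL_inl, bL_inr, mul_comm, ← mul_assoc, ← map_mul, traceQ_s s α hn h2 hs,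
        Matrix.fromBlocks_apply₂₁]
      rfl
    · rw [bL_inr, bL_inr, Matrix.fromBlocks_apply₂₂, Matrix.smul_apply, Matrix.of_apply,
        smul_eq_mul, ← traceQ_base (L := L) h2]
      congr 1
      rw [map_mul, map_mul, ← hs]
      ring
  have hc1 : Fintype.card (Free.ChooseBasisIndex ℤ (𝓞 M)) = finrank ℚ M :=
    (finrank_eq_card_basis (integralBasis M)).symm
  have hc2 : Fintype.card (Free.ChooseBasisIndex ℤ (cinv 𝔠 h)) = finrank ℚ M :=
    (finrank_eq_card_basis c).symm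
  rw [Algebra.discr_def, e, Matrix.det_fromBlocks_zero₂₁, Matrix.det_smul, Matrix.det_smul,
    det_trace_mul, hc1, hc2, ← Algebra.discr_def, ← coe_discr]

lemma discr_c (𝔠 : Ideal (𝓞 M)) (h : 𝔠 ≠ ⊥) :
    Algebra.discr ℚ (basisOfFractionalIdeal M (cinv 𝔠 h)) * (Ideal.absNorm 𝔠 : ℚ) ^ 2 =
      (discr M : ℚ) := by
  classical
  set c := basisOfFractionalIdeal M (cinv 𝔠 h) with hc
  have hcard : Fintype.card (Free.ChooseBasisIndex ℤ (𝓞 M)) =
      Fintype.card (Free.ChooseBasisIndex ℤ (cinv 𝔠 h)) := by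
    rw [← finrank_eq_card_basis (integralBasis M), ← finrank_eq_card_basis c]
  set e : Free.ChooseBasisIndex ℤ (𝓞 M) ≃ Free.ChooseBasisIndex ℤ (cinv 𝔠 h) :=
    Fintype.equivOfCardEq hcard with he
  have h1 := det_basisOfFractionalIdeal_eq_absNorm M (cinv 𝔠 h) e
  have h3 : Algebra.discr ℚ (c.reindex e.symm) =
      ((integralBasis M).toMatrix (c.reindex e.symm)).det ^ 2 *
        Algebra.discr ℚ (integralBasis M) := by
    conv_lhs => rw [← Basis.toMatrix_map_vecMul (integralBasis M) (c.reindex e.symm)]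
    rw [Algebra.discr_of_matrix_vecMul]
  have h4 : Algebra.discr ℚ (c.reindex e.symm) = Algebra.discr ℚ c := by
    rw [Basis.coe_reindex, Algebra.discr_reindex]
  have h5 : FractionalIdeal.absNorm (cinv 𝔠 h).1 = ((Ideal.absNorm 𝔠 : ℚ))⁻¹ := by
    rw [cinv_val, map_inv₀, FractionalIdeal.coeIdeal_absNorm]
  have hN : (Ideal.absNorm 𝔠 : ℚ) ≠ 0 := by
    rw [Ne, Nat.cast_eq_zero, Ideal.absNorm_eq_zero_iff]
    exact h
  rw [← h4, h3, ← coe_discr]
  rw [h5, Basis.det_apply] at h1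
  have h6 : ((integralBasis M).toMatrix (c.reindex e.symm)).det ^ 2 =
      ((Ideal.absNorm 𝔠 : ℚ))⁻¹ ^ 2 := by
    rw [← h1, sq_abs]
  rw [h6]
  field_simp

theorem disc_formula (s : L) (α : 𝓞 M) (𝔡 𝔠 : Ideal (𝓞 M)) (h2 : finrank M L = 2)
    (hs : s ^ 2 = algebraMap M L (α : M)) (hn : ∀ x : M, algebraMap M L x ≠ s) (hα : α ≠ 0)
    (hd : Squarefree 𝔡) (h : Ideal.span {α} = 𝔡 * 𝔠 ^ 2) :
    (discr L).natAbs * (kk 𝔠 α) ^ 2 =
      4 ^ finrank ℚ M * (discr M).natAbs ^ 2 * Ideal.absNorm 𝔡 := by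
  classical
  have hc0 : 𝔠 ≠ ⊥ := by
    rintro rfl
    have : Ideal.span {α} = ⊥ := by rw [h, pow_two, Ideal.bot_mul, Ideal.mul_bot]
    rw [Ideal.span_singleton_eq_bot] at this
    exact hα this
  set e := eL s hn h2 with he
  set f : (M × M) →+ L := e.toLinearMap.toAddMonoidHom with hf
  have hfi : Function.Injective f := e.injective
  have hfs : Function.Surjective f := e.surjective
  have hfa : ∀ p : M × M, f p = algebraMap M L p.1 + algebraMap M L p.2 * s := fun p =>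
    eL_apply s hn h2 p
  set G : AddSubgroup (M × M) := (IG L).comap f with hG
  have hGS : (G : Set (M × M)) = SQ 𝔠 α := by
    ext p
    constructor
    · intro hp
      have hp' : IsIntegral ℤ (f p) := hp
      rw [hfa] at hp'
      exact SQ_of_integral s α hn h2 hs hα hd h p.1 p.2 hp'
    · intro hp
      show IsIntegral ℤ (f p)
      rw [hfa]
      exact integral_of_SQ s α hs p.1 p.2 hp.1 hp.2.2
  have hcl : AddSubgroup.closure (Set.range (bL s hn h2 𝔠 hc0)) = (HH 𝔠).map f := by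
    rw [HH_eq 𝔠 hc0, AddMonoidHom.map_closure]
    congr 1
    rw [← Set.range_comp]
    rfl
  have hIG : IG L = G.map f := by
    rw [hG, AddSubgroup.map_comap_eq_self_of_surjective hfs]
  have hle : AddSubgroup.closure (Set.range (bL s hn h2 𝔠 hc0)) ≤ IG L := by
    rw [hcl]
    rintro _ ⟨p, hp, rfl⟩
    show IsIntegral ℤ (f p)
    rw [hfa]
    exact HH_sub s α hs h p.1 p.2 hp
  have h3 := discr_index (bL s hn h2 𝔠 hc0) hle
  have hidx : (AddSubgroup.closure (Set.range (bL s hn h2 𝔠 hc0))).relIndex (IG L) = kk 𝔠 α := by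
    rw [hcl, hIG, AddSubgroup.relIndex_map_map_of_injective _ _ hfi]
    have := AddSubgroup.relIndex_ker (QuotientAddGroup.mk' (HH 𝔠)) (K := G)
    rw [QuotientAddGroup.ker_mk'] at this
    rw [this]
    unfold kk
    rw [← hGS]
    rfl
  rw [hidx, discr_bL s α hn h2 hs] at h3
  have h4 := discr_c 𝔠 hc0
  have h5 : |Algebra.norm ℚ (α : M)| = (Ideal.absNorm 𝔡 : ℚ) * (Ideal.absNorm 𝔠 : ℚ) ^ 2 := by
    have h6 := congrArg Ideal.absNorm h
    rw [Ideal.absNorm_span_singleton, map_mul, map_pow] at h6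
    have h7 : ((Algebra.norm ℤ α : ℤ) : ℚ) = Algebra.norm ℚ (α : M) := Algebra.coe_norm_int α
    rw [← h7, ← Int.cast_abs, Int.abs_eq_natAbs, h6]
    push_cast
    rfl
  set N : ℚ := (Ideal.absNorm 𝔠 : ℚ) with hN
  set X : ℚ := Algebra.discr ℚ (basisOfFractionalIdeal M (cinv 𝔠 hc0)) with hX
  have h8 : |X| * N ^ 2 = |(discr M : ℚ)| := by
    rw [← h4, abs_mul, abs_of_nonneg (sq_nonneg N)]
  have h9 : (4 : ℚ) ^ finrank ℚ M = 2 ^ finrank ℚ M * 2 ^ finrank ℚ M := by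
    rw [← mul_pow]
    norm_num
  have h10 : |(discr L : ℚ)| * (kk 𝔠 α : ℚ) ^ 2 =
      4 ^ finrank ℚ M * |(discr M : ℚ)| ^ 2 * (Ideal.absNorm 𝔡 : ℚ) := by
    rw [mul_comm, ← h3, abs_mul, abs_mul, abs_mul, abs_mul, h5,
      abs_of_nonneg (by positivity : (0 : ℚ) ≤ 2 ^ finrank ℚ M), h9]
    linear_combination (2 ^ finrank ℚ M * |(discr M : ℚ)| * 2 ^ finrank ℚ M *
      (Ideal.absNorm 𝔡 : ℚ)) * h8
  have h11 : ∀ z : ℤ, |(z : ℚ)| = ((z.natAbs : ℕ) : ℚ) := by
    intro z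
    rw [Nat.cast_natAbs, Int.cast_abs]
  rw [h11, h11] at h10
  exact_mod_cast h10

end disc

end Pool.Agent.TH263.DQ
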